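import Mathlib
import Pool.Agent.Lib.helper11.NullPlastic

namespace Pool.Agent.Results.MP_f5469c_gt.Null

/-- every non-expansive bijection is an isometry -/
def IsPlastic (Z : Type) [MetricSpace Z] : Prop :=
  ∀ f : Z → Z, Function.Bijective f → (∀ x y, dist (f x) (f y) ≤ dist x y) →
    ∀ x y, dist (f x) (f y) = dist x y

theorem result (G : AddSubgroup ℝ) (hd : Dense (G : Set ℝ))
    (h0 : MeasureTheory.volume (G : Set ℝ) = 0) : ¬ IsPlastic G := by
  obtain ⟨f, h1, h2, x, y, h3⟩ := Pool.Agent.Lib.helper11.NullPlastic.not_plastic G hd h0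
  exact fun hp => h3 (hp f h1 h2 x y)

end Pool.Agent.Results.MP_f5469c_gt.Null
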